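import Mathlib

/-!
Structure theorem for the groups of order `w^3 v^2 B C D` (project GNU of helper74,
MP_d11331_al).
-/

set_option autoImplicit false

open Subgroup

namespace Pool.Agent.helper52.GNU

/-- componentwise action on a direct product -/
def prodAct {Q W V : Type*} [Group Q] [Group W] [Group V] (φ : Q →* MulAut W) (ψ : Q →* MulAut V) :
    Q →* MulAut (W × V) where
  toFun q := MulEquiv.prodCongr (φ q) (ψ q)
  map_one' := by
    rw [map_one, map_one]
    rfl
  map_mul' q r := by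
    rw [map_mul, map_mul]
    rfl

@[simp] theorem prodAct_apply {Q W V : Type*} [Group Q] [Group W] [Group V] (φ : Q →* MulAut W)
    (ψ : Q →* MulAut V) (q : Q) (x : W × V) : prodAct φ ψ q x = (φ q x.1, ψ q x.2) := rfl

/-- A prime `p` dividing the order of `G` exactly once, with `p - 1` prime to the order of `G`:
there is a surjection onto the cyclic group of order `p`. -/
theorem exists_hom_zmod {G : Type*} [Group G] [Finite G] {p m : ℕ} (hp : p.Prime)
    (hc : Nat.card G = p * m) (hpm : ¬ p ∣ m) (hcop : Nat.Coprime (Nat.card G) (p - 1)) :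
    ∃ f : G →* Multiplicative (ZMod p), Function.Surjective f := by
  have : Fact p.Prime := ⟨hp⟩
  obtain ⟨P⟩ : Nonempty (Sylow p G) := inferInstance
  have hm0 : m ≠ 0 := by
    rintro rfl
    exact hpm (dvd_zero p)
  have hfac : (Nat.card G).factorization p = 1 := by
    rw [hc, Nat.factorization_mul hp.ne_zero hm0, Finsupp.add_apply, hp.factorization_self,
      Nat.factorization_eq_zero_of_not_dvd hpm]
  have hP : Nat.card P = p := by
    rw [P.card_eq_multiplicity, hfac, pow_one]
  have hcyc : IsCyclic P := isCyclic_of_prime_card hP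
  have hle : normalizer (P : Set G) ≤ centralizer (P : Set G) := by
    have key := card_dvd_of_injective _ (QuotientGroup.kerLift_injective P.normalizerMonoidHom)
    rw [normalizerMonoidHom_ker, ← index, ← relIndex] at key
    refine relIndex_eq_one.mp (Nat.eq_one_of_dvd_coprimes ?_ dvd_rfl key)
    rw [hcyc.card_mulAut, hP, Nat.totient_prime hp]
    apply Nat.Coprime.coprime_dvd_left <| relIndex_dvd_card ..
    apply Nat.Coprime.coprime_dvd_left <| card_subgroup_dvd_card _
    exact hcop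
  have hcompl := MonoidHom.ker_transferSylow_isComplement' P hle
  have hsurj : Function.Surjective (MonoidHom.transferSylow P hle) := by
    rw [← MonoidHom.range_eq_top]
    apply Subgroup.eq_top_of_card_eq
    rw [← Subgroup.index_ker]
    exact hcompl.symm.index_eq_card
  have e : P ≃* Multiplicative (ZMod p) := mulEquivOfPrimeCardEq hP (by simp)
  exact ⟨e.toMonoidHom.comp (MonoidHom.transferSylow P hle), e.surjective.comp hsurj⟩

/-- A `p`-group acting on a group of order `v^2` without relations acts trivially. -/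
theorem commute_of_no_relation {K : Type*} [Group K] [Finite K] {w v : ℕ} (hw : w.Prime)
    (hv : v.Prime) (hwv : w ≠ v) (h1 : v % w ≠ 1) (h2 : v ^ 2 % w ≠ 1) (P R : Subgroup K) (hP : IsPGroup w P)
    (hR : Nat.card R = v ^ 2) (hn : P ≤ normalizer (R : Set K)) :
    ∀ g ∈ P, ∀ x ∈ R, g * x = x * g := by
  have : Fact w.Prime := ⟨hw⟩
  let act : MulDistribMulAction P R :=
    MulDistribMulAction.compHom R (R.normalizerMonoidHom.comp (Subgroup.inclusion hn))
  have hsm : ∀ (g : P) (x : R), ((g • x : R) : K) = g * x * (g : K)⁻¹ := by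
    intro g x
    rfl
  have hcard := hP.card_modEq_card_fixedPoints (α := R)
  set F : Subgroup R := FixedPoints.subgroup P R with hF
  have hFc : Nat.card (MulAction.fixedPoints P R) = Nat.card F := rfl
  rw [hFc, hR] at hcard
  have hdvd : Nat.card F ∣ v ^ 2 := hR ▸ Subgroup.card_subgroup_dvd_card F
  obtain ⟨k, hk, hk2⟩ := (Nat.dvd_prime_pow hv).1 hdvd
  have hw1 : 1 % w = 1 := Nat.mod_eq_of_lt hw.one_lt
  have htop : F = ⊤ := by
    apply Subgroup.eq_top_of_card_eq
    rw [hk2, hR]
    interval_cases k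
    · exfalso
      rw [hk2, pow_zero] at hcard
      exact h2 (Eq.trans hcard hw1)
    · exfalso
      rw [hk2, pow_one] at hcard
      have hcop : Nat.Coprime w v := (Nat.coprime_primes hw hv).2 hwv
      have h3 : v * v ≡ v * 1 [MOD w] := by
        rw [mul_one, ← sq]
        exact hcard
      have h4 : v ≡ 1 [MOD w] := Nat.ModEq.cancel_left_of_coprime hcop h3
      exact h1 (Eq.trans h4 hw1)
    · rfl
  intro g hg x hx
  have hxF : (⟨x, hx⟩ : R) ∈ F := by
    rw [htop]
    exact Subgroup.mem_top _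
  have h3 : (⟨g, hg⟩ : P) • (⟨x, hx⟩ : R) = ⟨x, hx⟩ := hxF ⟨g, hg⟩
  have h4 := congrArg (fun y : R => (y : K)) h3
  simp only [hsm] at h4
  exact mul_inv_eq_iff_eq_mul.1 h4

/-- A surjection onto a product of three cyclic groups of different prime orders. -/
theorem exists_hom_three {G : Type*} [Group G] [Finite G] {B C D N : ℕ} (hB : B.Prime)
    (hC : C.Prime) (hD : D.Prime) (hBC : B ≠ C) (hBD : B ≠ D) (hCD : C ≠ D)
    (hc : Nat.card G = N * (B * C * D)) (hBN : ¬ B ∣ N) (hCN : ¬ C ∣ N) (hDN : ¬ D ∣ N)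
    (hB1 : Nat.Coprime (Nat.card G) (B - 1)) (hC1 : Nat.Coprime (Nat.card G) (C - 1))
    (hD1 : Nat.Coprime (Nat.card G) (D - 1)) :
    ∃ f : G →* Multiplicative (ZMod B) × Multiplicative (ZMod C) × Multiplicative (ZMod D),
      Function.Surjective f := by
  have : Fact B.Prime := ⟨hB⟩
  have : Fact C.Prime := ⟨hC⟩
  have : Fact D.Prime := ⟨hD⟩
  have hcBC : Nat.Coprime B C := (Nat.coprime_primes hB hC).2 hBC
  have hcBD : Nat.Coprime B D := (Nat.coprime_primes hB hD).2 hBD
  have hcCD : Nat.Coprime C D := (Nat.coprime_primes hC hD).2 hCD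
  obtain ⟨fB, hfB⟩ := exists_hom_zmod (m := N * (C * D)) hB (by rw [hc]; ring) (by
    rw [hB.dvd_mul, hB.dvd_mul, Nat.prime_dvd_prime_iff_eq hB hC, Nat.prime_dvd_prime_iff_eq hB hD]
    tauto) hB1
  obtain ⟨fC, hfC⟩ := exists_hom_zmod (m := N * (B * D)) hC (by rw [hc]; ring) (by
    rw [hC.dvd_mul, hC.dvd_mul, Nat.prime_dvd_prime_iff_eq hC hB, Nat.prime_dvd_prime_iff_eq hC hD]
    tauto) hC1
  obtain ⟨fD, hfD⟩ := exists_hom_zmod (m := N * (B * C)) hD (by rw [hc]; ring) (by
    rw [hD.dvd_mul, hD.dvd_mul, Nat.prime_dvd_prime_iff_eq hD hB, Nat.prime_dvd_prime_iff_eq hD hC]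
    tauto) hD1
  refine ⟨fB.prod (fC.prod fD), ?_⟩
  set f := fB.prod (fC.prod fD) with hf
  have hBd : B ∣ Nat.card f.range := by
    have h := card_dvd_of_surjective
      ((MonoidHom.fst (Multiplicative (ZMod B)) _).comp f.range.subtype) (by
        intro b
        obtain ⟨g, hg⟩ := hfB b
        exact ⟨⟨f g, ⟨g, rfl⟩⟩, hg⟩)
    simpa using h
  have hCd : C ∣ Nat.card f.range := by
    have h := card_dvd_of_surjective
      (((MonoidHom.fst (Multiplicative (ZMod C)) _).comp
        (MonoidHom.snd (Multiplicative (ZMod B)) _)).comp f.range.subtype) (by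
        intro b
        obtain ⟨g, hg⟩ := hfC b
        exact ⟨⟨f g, ⟨g, rfl⟩⟩, hg⟩)
    simpa using h
  have hDd : D ∣ Nat.card f.range := by
    have h := card_dvd_of_surjective
      (((MonoidHom.snd (Multiplicative (ZMod C)) _).comp
        (MonoidHom.snd (Multiplicative (ZMod B)) _)).comp f.range.subtype) (by
        intro b
        obtain ⟨g, hg⟩ := hfD b
        exact ⟨⟨f g, ⟨g, rfl⟩⟩, hg⟩)
    simpa using h
  have hd : B * (C * D) ∣ Nat.card f.range :=
    Nat.Coprime.mul_dvd_of_dvd_of_dvd (Nat.Coprime.mul_right hcBC hcBD) hBd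
      (Nat.Coprime.mul_dvd_of_dvd_of_dvd hcCD hCd hDd)
  rw [← MonoidHom.range_eq_top]
  apply Subgroup.eq_top_of_le_card
  have h1 : Nat.card (Multiplicative (ZMod B) × Multiplicative (ZMod C) × Multiplicative (ZMod D)) =
      B * (C * D) := by
    simp
  rw [h1]
  exact Nat.le_of_dvd Nat.card_pos hd

/-- Groups of order `w^3 v^2` are direct products; both Sylow subgroups are characteristic. -/
theorem sylow_char {K : Type*} [Group K] [Finite K] {w v : ℕ} (hw : w.Prime) (hv : v.Prime)
    (hwv : w ^ 3 < v) (h1 : v % w ≠ 1) (h2 : v ^ 2 % w ≠ 1) (hc : Nat.card K = w ^ 3 * v ^ 2) :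
    ∃ W V : Subgroup K, W.Characteristic ∧ V.Characteristic ∧ Nat.card W = w ^ 3 ∧
      Nat.card V = v ^ 2 ∧ ∀ g ∈ W, ∀ x ∈ V, g * x = x * g := by
  have : Fact w.Prime := ⟨hw⟩
  have : Fact v.Prime := ⟨hv⟩
  have hne : w ≠ v := by
    rintro rfl
    have h3 : w ^ 1 ≤ w ^ 3 := Nat.pow_le_pow_right hw.pos (by norm_num)
    rw [pow_one] at h3
    omega
  have hcop : Nat.Coprime w v := (Nat.coprime_primes hw hv).2 hne
  obtain ⟨V⟩ : Nonempty (Sylow v K) := inferInstance
  obtain ⟨W⟩ : Nonempty (Sylow w K) := inferInstance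
  have hVc : Nat.card V = v ^ 2 := by
    rw [V.card_eq_multiplicity, hc, Nat.factorization_mul (pow_ne_zero _ hw.ne_zero)
      (pow_ne_zero _ hv.ne_zero), Finsupp.add_apply, hw.factorization_pow, hv.factorization_pow,
      Finsupp.single_eq_same, Finsupp.single_eq_of_ne hne.symm, zero_add]
  have hWc : Nat.card W = w ^ 3 := by
    rw [W.card_eq_multiplicity, hc, Nat.factorization_mul (pow_ne_zero _ hw.ne_zero)
      (pow_ne_zero _ hv.ne_zero), Finsupp.add_apply, hw.factorization_pow, hv.factorization_pow,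
      Finsupp.single_eq_same, Finsupp.single_eq_of_ne hne, add_zero]
  have hVi : (V : Subgroup K).index = w ^ 3 := by
    have h3 := Subgroup.card_mul_index (V : Subgroup K)
    rw [hc, show Nat.card (V : Subgroup K) = v ^ 2 from hVc, mul_comm (w ^ 3)] at h3
    exact Nat.eq_of_mul_eq_mul_left (pow_pos hv.pos 2) h3
  have hV1 : Nat.card (Sylow v K) = 1 := by
    have h3 := card_sylow_modEq_one v K
    have h4 : Nat.card (Sylow v K) ∣ w ^ 3 := hVi ▸ V.card_dvd_index
    have h5 : Nat.card (Sylow v K) < v :=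
      lt_of_le_of_lt (Nat.le_of_dvd (pow_pos hw.pos 3) h4) hwv
    have h6 : Nat.card (Sylow v K) % v = 1 % v := h3
    rwa [Nat.mod_eq_of_lt h5, Nat.mod_eq_of_lt hv.one_lt] at h6
  have hVs : Subsingleton (Sylow v K) := (Nat.card_eq_one_iff_unique.1 hV1).1
  have hVchar : (V : Subgroup K).Characteristic := Sylow.characteristic_of_subsingleton V
  have hVn : (V : Subgroup K).Normal := Sylow.normal_of_subsingleton V
  have hcomm : ∀ g ∈ (W : Subgroup K), ∀ x ∈ (V : Subgroup K), g * x = x * g :=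
    commute_of_no_relation hw hv hne h1 h2 (W : Subgroup K) (V : Subgroup K) W.isPGroup' hVc
      (le_of_le_of_eq le_top (V : Subgroup K).normalizer_eq_top.symm)
  have hWn : (W : Subgroup K).Normal := by
    rw [← Subgroup.normalizer_eq_top_iff]
    apply Subgroup.eq_top_of_le_card
    rw [hc]
    apply Nat.le_of_dvd Nat.card_pos
    refine Nat.Coprime.mul_dvd_of_dvd_of_dvd ((hcop.pow_left 3).pow_right 2) ?_ ?_
    · rw [← hWc]
      exact Subgroup.card_dvd_of_le Subgroup.le_normalizer
    · rw [← hVc]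
      refine Subgroup.card_dvd_of_le ?_
      intro x hx
      rw [Subgroup.mem_normalizer_iff]
      intro g
      constructor
      · intro hg
        rw [← hcomm g hg x hx, mul_assoc, mul_inv_cancel, mul_one]
        exact hg
      · intro hg
        have h3 := hcomm _ hg x hx
        have h4 : x * g * x⁻¹ * x = x * g := by group
        rw [h4] at h3
        have h5 : g = x * g * x⁻¹ := mul_left_cancel h3
        rw [h5]
        exact hg
  exact ⟨W, V, Sylow.characteristic_of_normal W hWn, hVchar, hWc, hVc, hcomm⟩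

/-- Recognition of a semidirect product with componentwise action. -/
theorem equiv_of_section {G Q : Type*} [Group G] [Finite G] [Group Q] [Finite Q]
    (W V : Subgroup G) [W.Normal] [V.Normal] (hcomm : ∀ g ∈ W, ∀ x ∈ V, g * x = x * g)
    (hcop : Nat.Coprime (Nat.card W) (Nat.card V)) (f : G →* Q) (hf : Function.Surjective f)
    (hW : W ≤ f.ker) (hV : V ≤ f.ker) (hcard : Nat.card G = Nat.card W * Nat.card V * Nat.card Q)
    (hQ : Nat.Coprime (Nat.card W * Nat.card V) (Nat.card Q)) :
    ∃ (φ : Q →* MulAut W) (ψ : Q →* MulAut V), Nonempty (G ≃* (W × V) ⋊[prodAct φ ψ] Q) := by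
  -- a section of `f`
  have hki : f.ker.index = Nat.card Q := by
    rw [Subgroup.index_ker, MonoidHom.range_eq_top.2 hf]
    exact Nat.card_congr Subgroup.topEquiv.toEquiv
  have hkc : Nat.card f.ker = Nat.card W * Nat.card V := by
    have h3 := f.ker.card_mul_index
    rw [hki, hcard] at h3
    exact Nat.eq_of_mul_eq_mul_right Nat.card_pos h3
  obtain ⟨S, hS⟩ := Subgroup.exists_right_complement'_of_coprime (N := f.ker)
    (by rw [hkc, hki]; exact hQ)
  have hSd : f.ker ⊓ S = ⊥ := disjoint_iff.1 hS.disjoint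
  have hSc : Nat.card S = Nat.card Q := by
    rw [← hki]
    exact hS.symm.index_eq_card.symm
  have hinj : Function.Injective (f.comp S.subtype) := by
    rw [injective_iff_map_eq_one]
    intro x hx
    have h3 : (x : G) ∈ f.ker ⊓ S := ⟨hx, x.2⟩
    rw [hSd, Subgroup.mem_bot] at h3
    exact Subtype.ext h3
  have hbij : Function.Bijective (f.comp S.subtype) :=
    (Nat.bijective_iff_injective_and_card _).2 ⟨hinj, hSc⟩
  let e : S ≃* Q := MulEquiv.ofBijective (f.comp S.subtype) hbij
  let s : Q →* G := S.subtype.comp e.symm.toMonoidHom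
  have hs : ∀ q, f (s q) = q := fun q => e.apply_symm_apply q
  let φ : Q →* MulAut W := (MulAut.conjNormal).comp s
  let ψ : Q →* MulAut V := (MulAut.conjNormal).comp s
  refine ⟨φ, ψ, ?_⟩
  let m : W × V →* G := MonoidHom.noncommCoprod W.subtype V.subtype
    (fun a b => hcomm a a.2 b b.2)
  have hm : ∀ x : W × V, m x = (x.1 : G) * x.2 := fun x => rfl
  let F : (W × V) ⋊[prodAct φ ψ] Q →* G := SemidirectProduct.lift m s (by
    intro q
    refine MonoidHom.ext fun x => ?_
    show m (φ q x.1, ψ q x.2) = s q * m x * (s q)⁻¹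
    rw [hm, hm]
    simp only [φ, ψ, MonoidHom.comp_apply, MulAut.conjNormal_apply]
    group)
  have hF : ∀ x, F x = m x.left * s x.right := fun x => rfl
  have hWV : W ⊓ V = ⊥ := by
    rw [Subgroup.eq_bot_iff_card]
    have h3 : Nat.card (W ⊓ V : Subgroup G) ∣ Nat.card W := Subgroup.card_dvd_of_le inf_le_left
    have h4 : Nat.card (W ⊓ V : Subgroup G) ∣ Nat.card V := Subgroup.card_dvd_of_le inf_le_right
    exact Nat.eq_one_of_dvd_coprimes hcop h3 h4
  have hFi : Function.Injective F := by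
    rw [injective_iff_map_eq_one]
    intro x hx
    rw [hF] at hx
    have h3 : f (m x.left * s x.right) = x.right := by
      rw [map_mul, hs, hm, map_mul, hW x.left.1.2, hV x.left.2.2, one_mul, one_mul]
    rw [hx, map_one] at h3
    rw [← h3, map_one, mul_one, hm] at hx
    have h4 : (x.left.1 : G) = (x.left.2 : G)⁻¹ := eq_inv_of_mul_eq_one_left hx
    have h5 : (x.left.1 : G) ∈ W ⊓ V := ⟨x.left.1.2, h4 ▸ V.inv_mem x.left.2.2⟩
    rw [hWV, Subgroup.mem_bot] at h5
    rw [h5, one_mul] at hx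
    ext
    · exact h5
    · exact hx
    · exact h3.symm
  have hFc : Nat.card ((W × V) ⋊[prodAct φ ψ] Q) = Nat.card G := by
    rw [SemidirectProduct.card, Nat.card_prod, hcard]
  have : Finite ((W × V) ⋊[prodAct φ ψ] Q) := Finite.of_injective F hFi
  exact ⟨(MulEquiv.ofBijective F ((Nat.bijective_iff_injective_and_card _).2 ⟨hFi, hFc⟩)).symm⟩

/-- **Structure theorem.** -/
theorem structure_theorem {G : Type} [Group G] [Finite G] {w v B C D : ℕ} (hw : w.Prime)
    (hv : v.Prime) (hB : B.Prime) (hC : C.Prime) (hD : D.Prime) (hBC : B ≠ C) (hBD : B ≠ D)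
    (hCD : C ≠ D) (hwB : w ≠ B) (hwC : w ≠ C) (hwD : w ≠ D) (hvB : v ≠ B) (hvC : v ≠ C)
    (hvD : v ≠ D) (hwv : w ^ 3 < v) (h1 : v % w ≠ 1) (h2 : v ^ 2 % w ≠ 1)
    (hc : Nat.card G = w ^ 3 * v ^ 2 * (B * C * D))
    (hB1 : Nat.Coprime (Nat.card G) (B - 1)) (hC1 : Nat.Coprime (Nat.card G) (C - 1))
    (hD1 : Nat.Coprime (Nat.card G) (D - 1)) :
    ∃ (W V : Type) (_ : Group W) (_ : Group V)
      (φ : Multiplicative (ZMod B) × Multiplicative (ZMod C) × Multiplicative (ZMod D) →* MulAut W)
      (ψ : Multiplicative (ZMod B) × Multiplicative (ZMod C) × Multiplicative (ZMod D) →* MulAut V),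
      Nat.card W = w ^ 3 ∧ Nat.card V = v ^ 2 ∧ Nonempty (G ≃* (W × V) ⋊[prodAct φ ψ]
        (Multiplicative (ZMod B) × Multiplicative (ZMod C) × Multiplicative (ZMod D))) := by
  have : Fact B.Prime := ⟨hB⟩
  have : Fact C.Prime := ⟨hC⟩
  have : Fact D.Prime := ⟨hD⟩
  have hnd : ∀ q : ℕ, q.Prime → w ≠ q → v ≠ q → ¬ q ∣ w ^ 3 * v ^ 2 := by
    intro q hq h3 h4 h5
    rcases (hq.dvd_mul).1 h5 with h6 | h6
    · exact h3 ((Nat.prime_dvd_prime_iff_eq hq hw).1 (hq.dvd_of_dvd_pow h6)).symm
    · exact h4 ((Nat.prime_dvd_prime_iff_eq hq hv).1 (hq.dvd_of_dvd_pow h6)).symm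
  obtain ⟨f, hf⟩ := exists_hom_three hB hC hD hBC hBD hCD hc (hnd B hB hwB hvB)
    (hnd C hC hwC hvC) (hnd D hD hwD hvD) hB1 hC1 hD1
  have hQc : Nat.card (Multiplicative (ZMod B) × Multiplicative (ZMod C) ×
      Multiplicative (ZMod D)) = B * C * D := by
    simp [mul_assoc]
  have hki : f.ker.index = B * C * D := by
    rw [Subgroup.index_ker, MonoidHom.range_eq_top.2 hf, ← hQc]
    exact Nat.card_congr Subgroup.topEquiv.toEquiv
  have hkc : Nat.card f.ker = w ^ 3 * v ^ 2 := by
    have h3 := f.ker.card_mul_index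
    rw [hki, hc] at h3
    exact Nat.eq_of_mul_eq_mul_right
      (Nat.mul_pos (Nat.mul_pos hB.pos hC.pos) hD.pos) h3
  obtain ⟨W, V, hWchar, hVchar, hWc, hVc, hcomm⟩ := sylow_char hw hv hwv h1 h2 hkc
  have hWn : (W.map f.ker.subtype).Normal := ConjAct.normal_of_characteristic_of_normal
  have hVn : (V.map f.ker.subtype).Normal := ConjAct.normal_of_characteristic_of_normal
  have hWc' : Nat.card (W.map f.ker.subtype) = w ^ 3 := by
    rw [← hWc]
    exact (Nat.card_congr (W.equivMapOfInjective _ f.ker.subtype_injective).toEquiv).symm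
  have hVc' : Nat.card (V.map f.ker.subtype) = v ^ 2 := by
    rw [← hVc]
    exact (Nat.card_congr (V.equivMapOfInjective _ f.ker.subtype_injective).toEquiv).symm
  have hne : w ≠ v := by
    rintro rfl
    have h3 : w ^ 1 ≤ w ^ 3 := Nat.pow_le_pow_right hw.pos (by norm_num)
    rw [pow_one] at h3
    omega
  have hcop : Nat.Coprime w v := (Nat.coprime_primes hw hv).2 hne
  obtain ⟨φ, ψ, he⟩ := equiv_of_section (W.map f.ker.subtype) (V.map f.ker.subtype)
    (by
      rintro _ ⟨g, hg, rfl⟩ _ ⟨x, hx, rfl⟩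
      have h3 := congrArg f.ker.subtype (hcomm g hg x hx)
      simpa using h3)
    (by
      rw [hWc', hVc']
      exact (hcop.pow_left 3).pow_right 2)
    f hf (Subgroup.map_subtype_le W) (Subgroup.map_subtype_le V)
    (by rw [hWc', hVc', hQc, hc])
    (by
      rw [hWc', hVc', hQc]
      refine Nat.Coprime.mul_right (Nat.Coprime.mul_right ?_ ?_) ?_
      · exact ((Nat.Prime.coprime_iff_not_dvd hB).2 (hnd B hB hwB hvB)).symm
      · exact ((Nat.Prime.coprime_iff_not_dvd hC).2 (hnd C hC hwC hvC)).symm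
      · exact ((Nat.Prime.coprime_iff_not_dvd hD).2 (hnd D hD hwD hvD)).symm)
  exact ⟨_, _, _, _, φ, ψ, hWc', hVc', he⟩

end Pool.Agent.helper52.GNU
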